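import Mathlib

/-! Volumetric weak epsilon-nets on the line. -/

namespace Pool.Agent.Results.MP_a20b56_co.Line

open MeasureTheory Finset Classical

theorem seg {A : Set ℝ} (hA : Convex ℝ A) (hv : volume A = 1) :
    ∃ a, Set.Icc a (a + 1 / 2) ⊆ A := by
  by_contra h
  push Not at h
  have key : ∀ x ∈ A, ∀ y ∈ A, y - x ≤ 1 / 2 := fun x hx y hy => by
    by_contra e
    exact h x ((Set.Icc_subset_Icc_right (by linarith)).trans (hA.ordConnected.out hx hy))
  have hne : A.Nonempty := by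
    rw [Set.nonempty_iff_ne_empty]; rintro rfl; simp at hv
  have := (Real.volume_le_diam A).trans (Metric.ediam_le_of_forall_dist_le (C := 1 / 2)
    fun x hx y hy => by
      rw [Real.dist_eq, abs_le]; constructor <;> linarith [key x hx y hy, key y hy x hx])
  rw [hv, ENNReal.one_le_ofReal] at this
  linarith

theorem result (ε : ℝ) (hε : 0 < ε) (F : Finset (Set ℝ)) (hF : F.Nonempty)
    (hc : ∀ A ∈ F, Convex ℝ A ∧ volume A = 1) :
    ∃ S : Finset (Set ℝ), (S.card : ℝ) ≤ 1 / ε ∧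
      (∀ s ∈ S, MeasurableSet s ∧ volume s = 1 / 2) ∧
      ∀ G ⊆ F, ε * F.card ≤ G.card → ∃ s ∈ S, s ⊆ convexHull ℝ (⋃ A ∈ G, A) := by
  have h0 : ∀ A : Set ℝ, ∃ a, A ∈ F → Set.Icc a (a + 1 / 2) ⊆ A := fun A => by
    by_cases h : A ∈ F
    · obtain ⟨a, ha⟩ := seg (hc A h).1 (hc A h).2
      exact ⟨a, fun _ => ha⟩
    · exact ⟨0, fun e => absurd e h⟩
  choose a ha using h0
  let cnt : ℝ → ℕ := fun x => (F.filter fun B => a B ≤ x).card
  have ex : ∀ t : ℕ, ∃ p : ℝ, t ≤ F.card → t ≤ cnt p ∧ ∀ A ∈ F, t ≤ cnt (a A) → p ≤ a A := by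
    intro t
    by_cases ht : t ≤ F.card
    · obtain ⟨M, hM, hM'⟩ := exists_max_image F a hF
      obtain ⟨A, hA, hA'⟩ := exists_min_image (F.filter fun A => t ≤ cnt (a A)) a
        ⟨M, mem_filter.2 ⟨hM, by simp only [cnt]; rwa [filter_true_of_mem hM']⟩⟩
      exact ⟨a A, fun _ => ⟨(mem_filter.1 hA).2, fun B hB h => hA' B (mem_filter.2 ⟨hB, h⟩)⟩⟩
    · exact ⟨0, fun e => absurd e ht⟩
  choose p hp using ex
  have hN : (0 : ℝ) < F.card := by exact_mod_cast hF.card_pos
  set k := ⌈ε * F.card⌉₊ with hk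
  have k0 : 0 < k := Nat.ceil_pos.2 (by positivity)
  have k1 : ε * F.card ≤ k := Nat.le_ceil _
  refine ⟨(Icc 1 (F.card / k)).image fun j => Set.Icc (p (j * k)) (p (j * k) + 1 / 2), ?_, ?_, ?_⟩
  · have h1 : ((F.card / k : ℕ) : ℝ) * k ≤ F.card := by exact_mod_cast Nat.div_mul_le_self _ _
    have h2 := card_image_le (s := Icc 1 (F.card / k))
      (f := fun j => Set.Icc (p (j * k)) (p (j * k) + 1 / 2))
    rw [Nat.card_Icc, Nat.add_sub_cancel] at h2
    have h3 : (_ : ℝ) ≤ ((F.card / k : ℕ) : ℝ) := Nat.cast_le.2 h2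
    refine h3.trans ?_
    rw [le_div_iff₀ hε]
    have : (0 : ℝ) ≤ ((F.card / k : ℕ) : ℝ) := by positivity
    nlinarith [mul_le_mul_of_nonneg_left k1 this]
  · intro s hs
    obtain ⟨j, -, rfl⟩ := mem_image.1 hs
    refine ⟨measurableSet_Icc, ?_⟩
    rw [Real.volume_Icc, add_sub_cancel_left, ENNReal.ofReal_div_of_pos two_pos]
    simp
  · intro G hG h
    have hk' : k ≤ G.card := Nat.ceil_le.2 h
    have hne : G.Nonempty := card_pos.1 (by omega)
    obtain ⟨lo, hlo, hlo'⟩ := exists_min_image G a hne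
    obtain ⟨hi, hhi, hhi'⟩ := exists_max_image G a hne
    set L := (F.filter fun B => a B < a lo).card with hL
    have c1 : L + G.card ≤ cnt (a hi) := by
      rw [hL, ← card_union_of_disjoint]
      · refine card_le_card fun B hB => ?_
        rcases mem_union.1 hB with hB | hB
        · rw [mem_filter] at hB ⊢
          exact ⟨hB.1, hB.2.le.trans (hhi' lo hlo)⟩
        · exact mem_filter.2 ⟨hG hB, hhi' B hB⟩
      · exact disjoint_left.2 fun B h1 h2 => absurd (hlo' B h2) (not_le.2 (mem_filter.1 h1).2)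
    have c2 : cnt (a hi) ≤ F.card := card_filter_le _ _
    have c3 : (L / k + 1) * k ≤ L + k := by
      rw [add_mul, one_mul]; exact Nat.add_le_add_right (Nat.div_mul_le_self _ _) _
    have c4 : L < (L / k + 1) * k := by
      rw [mul_comm]; exact Nat.lt_mul_div_succ L k0
    obtain ⟨p1, p2⟩ := hp ((L / k + 1) * k) (by omega)
    have p3 := p2 hi (hG hhi) (by omega)
    have p4 : a lo ≤ p ((L / k + 1) * k) := by
      by_contra e
      have : cnt (p ((L / k + 1) * k)) ≤ L :=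
        card_le_card fun B hB => by
          rw [mem_filter] at hB ⊢
          exact ⟨hB.1, by linarith [hB.2]⟩
      omega
    refine ⟨_, mem_image_of_mem _ (a := L / k + 1)
      (mem_Icc.2 ⟨Nat.le_add_left _ _, (Nat.le_div_iff_mul_le k0).2 (by omega)⟩), ?_⟩
    have m : ∀ A ∈ G, ∀ x ∈ Set.Icc (a A) (a A + 1 / 2), x ∈ convexHull ℝ (⋃ A ∈ G, A) :=
      fun A hA x hx => subset_convexHull ℝ _ (Set.mem_biUnion hA (ha A (hG hA) hx))
    refine (Set.Icc_subset_Icc p4 (by linarith)).trans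
      ((convex_convexHull ℝ _).ordConnected.out (m lo hlo (a lo) ⟨le_rfl, by linarith⟩)
        (m hi hhi (a hi + 1 / 2) ⟨by linarith, le_rfl⟩))

end Pool.Agent.Results.MP_a20b56_co.Line
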